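import Mathlib
import Pool.Agent.Q299.MUlt

set_option autoImplicit false

namespace Pool.Agent.Results.MP_b27926_lc.MinimalNotFeMinimal

open Pool.Agent.Q299.MUlt

/-- `F` is minimal for the preorder `ρ` of ultrafilters: `F` is not the principal ultrafilter at `1`,
and every `G` with `ρ G F` is the principal ultrafilter at `1` or equivalent to `F`. -/
def Minimal (ρ : Ultrafilter ℕ+ → Ultrafilter ℕ+ → Prop) (F : Ultrafilter ℕ+) : Prop :=
  F ≠ pure 1 ∧ ∀ G : Ultrafilter ℕ+, ρ G F → G = pure 1 ∨ (ρ G F ∧ ρ F G)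

/-- Some ultrafilter is minimal for `∣_M` but not for `≤_fe`. -/
theorem result : ∃ F : Ultrafilter ℕ+, Minimal mdvd F ∧ ¬ Minimal fe F := by
  refine ⟨FF, ⟨FF_ne_one, fun K hK => ?_⟩, fun h => ?_⟩
  · rcases FF_minimal K hK with h | h
    · exact Or.inl h
    · right
      refine ⟨hK, ?_⟩
      rw [← h]
      exact ⟨pure 1, pure 1, by rw [mul_pure_one, pure_one_mul]⟩
  · rcases h.2 G fe_G_FF with h1 | h1
    · exact G_ne_one h1
    · exact not_fe_FF_G h1.2

end Pool.Agent.Results.MP_b27926_lc.MinimalNotFeMinimal
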